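import Pool.Agent.R370.JU.A

/-!
# Very general hyperplane sections and fields of definition
-/

set_option autoImplicit false
set_option linter.unusedSectionVars false
set_option linter.style.haveILetI false

namespace Pool.Agent.R370.HS

open MvPolynomial Pool.Agent.R948 Pool.Agent.R948.ZP Pool.Agent.R370.JU

attribute [local instance] MvPolynomial.gradedAlgebra

section

variable {K : Type} [Field K] {ι : Type} [Fintype ι]

/-- a linear form -/
noncomputable def lin (u : ι → K) : MvPolynomial ι K := ∑ i, C (u i) * MvPolynomial.X i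

/-- The hyperplane with coefficients `u`. -/
def hyp (u : ι → K) : Set (ι → K) := {x | ∑ i, u i * x i = 0}

theorem eval_lin (u x : ι → K) : eval x (lin u) = ∑ i, u i * x i := by
  simp [lin, map_sum]

theorem zeros_lin (u : ι → K) : zeros {lin u} = hyp u := by
  ext x
  constructor
  · intro h
    have h1 := h (lin u) rfl
    rwa [eval_lin] at h1
  · rintro h _ rfl
    rw [eval_lin]
    exact h

theorem lin_hom (u : ι → K) : (lin u).IsHomogeneous 1 := by
  refine IsHomogeneous.sum _ _ _ fun i _ => ?_
  have h1 := (isHomogeneous_C ι (u i)).mul (isHomogeneous_X K i)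
  rwa [zero_add] at h1

theorem closed_hyp' {X : Set (ι → K)} (hX : IsCone X) (u : ι → K) : Closed X (X ∩ hyp u) := by
  rw [← zeros_lin]
  exact closed_hyp hX (lin_hom u)

/-- subvarieties given by homogeneous primes -/
theorem sub_of_hom_prime [IsAlgClosed K] {X : Set (ι → K)} (hX : IsCone X)
    {F G : Set (MvPolynomial ι K)} (hFG : X = zeros F \ zeros G)
    (Q : Ideal (MvPolynomial ι K)) (hQ : Q.IsPrime)
    (hh : Q.IsHomogeneous (homogeneousSubmodule ι K)) (hF : ∀ f ∈ F, f ∈ Q)
    {g : MvPolynomial ι K} (hg : g ∈ G) (hgQ : g ∉ Q) :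
    Subvariety X (X ∩ zeros (Q : Set (MvPolynomial ι K))) ∧
      van (X ∩ zeros (Q : Set (MvPolynomial ι K))) = Q := by
  have hDc : Closed X (X ∩ zeros (Q : Set (MvPolynomial ι K))) := by
    refine ⟨fun x hx c hc => ⟨hX x hx.1 c hc, ?_⟩, _, rfl⟩
    refine cone_of_hom _ ?_ x hx.2 c hc
    intro g hg n
    have h1 := hh n hg
    change (((DirectSum.Decomposition.decompose' g) n : homogeneousSubmodule ι K n) :
      MvPolynomial ι K) ∈ Q at h1
    rw [MvPolynomial.decomposition.decompose'_apply] at h1
    exact h1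
  have hvan : van (X ∩ zeros (Q : Set (MvPolynomial ι K))) = Q := by
    apply le_antisymm
    · intro u hu
      have h1 : u * g ∈ Q := by
        rw [mem_prime_iff]
        intro y hy
        rw [map_mul]
        by_cases hyX : y ∈ X
        · rw [hu y ⟨hyX, hy⟩, zero_mul]
        · have h3 : y ∈ zeros F := fun f' hf' => hy f' (hF f' hf')
          have h6 : y ∈ zeros G := by
            by_contra hcon
            exact hyX (by rw [hFG]; exact ⟨h3, hcon⟩)
          rw [h6 g hg, mul_zero]
      exact (hQ.mem_or_mem h1).resolve_right hgQ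
    · exact fun u hu x hx => hx.2 u hu
  exact ⟨Subvariety.of_prime hDc (by rw [hvan]; exact hQ), hvan⟩

end

section

variable {k K : Type} [Field k] [Field K] [Algebra k K] {ι κ : Type} [Fintype ι] [Fintype κ]

theorem td_sum_le' {E : Type} [Field E] [Algebra k E] (w : ι → E) (c : κ → E) :
    td k (Sum.elim w c) ≤ td k w + Fintype.card κ := by
  classical
  obtain ⟨S, hS, hind, -⟩ := exists_td k (Sum.elim w c)
  rw [← hS]
  let S' : Finset ι := Finset.univ.filter fun i => Sum.inl i ∈ S
  have h1 : AlgebraicIndependent k (fun i : S' => w i) := by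
    let g : S' → S := fun i => ⟨Sum.inl i.1, (Finset.mem_filter.1 i.2).2⟩
    have hg : Function.Injective g := by
      intro a b hab
      have h2 := congrArg Subtype.val hab
      exact Subtype.ext (Sum.inl_injective h2)
    exact hind.comp g hg
  have h2 := le_td k h1
  have h3 : S ⊆ (S'.image Sum.inl) ∪ ((Finset.univ : Finset κ).image Sum.inr) := by
    intro s hs
    rcases s with i | j
    · exact Finset.mem_union_left _ (Finset.mem_image_of_mem _ (by
        rw [Finset.mem_filter]; exact ⟨Finset.mem_univ _, hs⟩))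
    · exact Finset.mem_union_right _ (Finset.mem_image_of_mem _ (Finset.mem_univ _))
  have h4 := (Finset.card_le_card h3).trans (Finset.card_union_le _ _)
  have h5 := Finset.card_image_le (s := S') (f := (Sum.inl : ι → ι ⊕ κ))
  have h6 := Finset.card_image_le (s := (Finset.univ : Finset κ)) (f := (Sum.inr : κ → ι ⊕ κ))
  rw [Finset.card_univ] at h6
  omega

/-- the contraction of a prime containing a generic linear form is larger -/
theorem hyp_ineq {u : ι → K} (hu : AlgebraicIndependent k u) (Q : Ideal (MvPolynomial ι K))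
    [Q.IsPrime] [(Q.comap (MvPolynomial.map (algebraMap k K))).IsPrime] (hl : lin u ∈ Q)
    (i₀ : ι) (hi₀ : (MvPolynomial.X i₀ : MvPolynomial ι K) ∉ Q) :
    tdP Q + 1 ≤ tdP (Q.comap (MvPolynomial.map (algebraMap k K))) := by
  classical
  let A := MvPolynomial ι K ⧸ Q
  let E := FractionRing A
  let y : ι → E := fun i => algebraMap A E (cp Q i)
  have hyK : ∀ f : MvPolynomial ι K, aeval y f = algebraMap A E (aeval (cp Q) f) :=
    fun f => MvPolynomial.aeval_algebraMap_apply E (cp Q) f
  have hy0 : ∀ f : MvPolynomial ι K, aeval y f = 0 ↔ f ∈ Q := by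
    intro f
    rw [hyK, map_eq_zero_iff _ (IsFractionRing.injective A E), aeval_cp_eq_zero]
  have hy0' : y i₀ ≠ 0 := by
    intro h
    apply hi₀
    rw [← hy0, aeval_X]
    exact h
  have hrel : ∑ i, algebraMap K E (u i) * y i = 0 := by
    have h1 := (hy0 _).2 hl
    rw [lin, map_sum] at h1
    rw [← h1]
    refine Finset.sum_congr rfl fun i _ => ?_
    rw [map_mul, aeval_C, aeval_X]
  have h1 : tdP Q ≤ td K y := tdP_le_td _ _ fun f hf => (hy0 f).1 hf
  have h2 : Fintype.card ι ≤ td k u := card_le_td hu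
  have h3 := td_add_le (F := k) (k := K) (K := E) y u
  let u' : {i // i ≠ i₀} → E := fun i => algebraMap K E (u i)
  have h4 : td k (Sum.elim y (fun j => algebraMap K E (u j))) ≤ td k (Sum.elim y u') := by
    refine td_le_of_alg k fun s => ?_
    rcases s with i | j
    · exact alg_of_range (F := k) (Sum.elim y u') (Sum.inl i)
    · by_cases hj : j = i₀
      · subst hj
        change IsAlgebraic _ (algebraMap K E (u j))
        have h5 : algebraMap K E (u j) =
            (-∑ i ∈ Finset.univ.erase j, algebraMap K E (u i) * y i) * (y j)⁻¹ := by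
          rw [← Finset.add_sum_erase _ _ (Finset.mem_univ j)] at hrel
          rw [eq_mul_inv_iff_mul_eq₀ hy0']
          linear_combination hrel
        rw [h5]
        have hsum : (-∑ i ∈ Finset.univ.erase j, algebraMap K E (u i) * y i) ∈
            Algebra.adjoin k (Set.range (Sum.elim y u')) := by
          refine neg_mem (sum_mem fun i hi => mul_mem ?_ ?_)
          · exact Algebra.subset_adjoin ⟨Sum.inr ⟨i, Finset.ne_of_mem_erase hi⟩, rfl⟩
          · exact Algebra.subset_adjoin ⟨Sum.inl i, rfl⟩
        exact (isAlgebraic_algebraMap (A := E)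
          (⟨_, hsum⟩ : Algebra.adjoin k (Set.range (Sum.elim y u')))).mul
          (IsAlgebraic.inv_iff.2 (alg_of_range (F := k) (Sum.elim y u') (Sum.inl j)))
      · exact alg_of_range (F := k) (Sum.elim y u') (Sum.inr ⟨j, hj⟩)
  have h5 := td_sum_le' (k := k) y u'
  have h6 : td k y ≤ tdP (Q.comap (MvPolynomial.map (algebraMap k K))) := by
    refine td_le_tdP _ _ fun f hf => ?_
    have h6 : aeval y f = aeval y (MvPolynomial.map (algebraMap k K) f) := by
      rw [aeval_map_algebraMap]
    rw [h6, hy0]
    exact hf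
  have h7 : Fintype.card {i // i ≠ i₀} + 1 = Fintype.card ι := by
    have h8 := Fintype.card_subtype_compl (fun i => i = i₀)
    rw [Fintype.card_subtype_eq] at h8
    have h9 : 0 < Fintype.card ι := Fintype.card_pos_iff.2 ⟨i₀⟩
    have h10 : Fintype.card {i // i ≠ i₀} = Fintype.card ι - 1 := h8
    omega
  omega

variable [IsAlgClosed k] [IsAlgClosed K]

/-- the closure over `k` of a subvariety of a generic hyperplane section is larger -/
theorem vd_clo_hyp {X B V : Set (ι → K)} (hX : QuasiProjective X) (hB : Subvariety X B)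
    (hV : Subvariety X V) (hVd : Def k V) (hBV : B ⊆ V) {u : ι → K}
    (hu : AlgebraicIndependent k u) (hBu : B ⊆ hyp u) : vd B + 1 ≤ vd (clo k X B) := by
  haveI : Infinite K := IsAlgClosed.instInfinite
  haveI := hB.prime hX.cone
  haveI := cont_prime (k := k) hX.cone hB
  haveI : ((van B).comap (MvPolynomial.map (algebraMap k K))).IsPrime :=
    cont_prime (k := k) hX.cone hB
  obtain ⟨x, hx⟩ := hB.nonempty
  have hx0 : x ≠ 0 := fun h => hX.zero (h ▸ hB.subset hx)
  obtain ⟨i₀, hi₀⟩ := Function.ne_iff.1 hx0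
  have h1 : (MvPolynomial.X i₀ : MvPolynomial ι K) ∉ van B := by
    intro h
    have h2 := h x hx
    rw [eval_X] at h2
    exact hi₀ h2
  have h2 : lin u ∈ van B := by
    intro z hz
    rw [eval_lin]
    exact hBu hz
  have h3 := hyp_ineq hu (van B) h2 i₀ h1
  have h4 := vd_clo (k := k) hX hB hV hVd hBV
  rw [vd_eq]
  exact h3.trans h4

/-- generic hyperplanes meet subvarieties of positive dimension -/
theorem exists_sub_hyp {X A : Set (ι → K)} (hX : QuasiProjective X) {F : Set (MvPolynomial ι K)}
    {G' : Set (MvPolynomial ι k)}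
    (hFG : X = zeros F \ zeros (MvPolynomial.map (algebraMap k K) '' G'))
    (hA : Subvariety X A) (hAd : Def k A) (hA2 : 2 ≤ vd A) {u : ι → K}
    (hu : AlgebraicIndependent k u) : ∃ B, Subvariety X B ∧ B ⊆ A ∩ (X ∩ hyp u) := by
  classical
  haveI : Infinite K := IsAlgClosed.instInfinite
  haveI := hA.prime hX.cone
  obtain ⟨x, hx⟩ := hA.nonempty
  have hxX := hA.subset hx
  rw [hFG] at hxX
  have hxG := hxX.2
  simp only [zeros, Set.mem_ofPred_eq, not_forall] at hxG
  obtain ⟨_, ⟨g', hg', rfl⟩, hgx⟩ := hxG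
  have hgA : g' ∉ cont k A := fun h => hgx (h x hx)
  have hFA : ∀ f ∈ F, f ∈ van A := by
    intro f hf z hz
    have h5 := hA.subset hz
    rw [hFG] at h5
    exact h5.1 f hf
  -- the ideal of the section is proper
  have hI : van A ⊔ Ideal.span {lin u} ≠ ⊤ := by
    intro htop
    have h1 : van A ⊔ Ideal.span {lin u} ≤ RingHom.ker (eval (0 : ι → K)) := by
      refine sup_le (fun f hf => ?_) ?_
      · rw [RingHom.mem_ker]
        have h2 : f ∈ van (line x) := fun z hz => hf z (line_subset hA.closed.1 hx hz)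
        rw [mem_van_line] at h2
        have h3 := eval_lp x f 0
        rw [h2, Polynomial.eval_zero, zero_smul] at h3
        exact h3.symm
      · rw [Ideal.span_le, Set.singleton_subset_iff, SetLike.mem_coe, RingHom.mem_ker, eval_lin]
        simp
    rw [htop] at h1
    have h2 : (1 : MvPolynomial ι K) ∈ RingHom.ker (eval (0 : ι → K)) := h1 trivial
    rw [RingHom.mem_ker, map_one] at h2
    exact one_ne_zero h2
  obtain ⟨Q, hQ⟩ := Ideal.nonempty_minimalPrimes hI
  haveI hQp : Q.IsPrime := hQ.1.1
  have hAQ : van A ≤ Q := le_sup_left.trans hQ.1.2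
  have hlQ : lin u ∈ Q := hQ.1.2 (Ideal.mem_sup_right (Ideal.mem_span_singleton_self _))
  have h1 : tdP (van A) ≤ tdP Q + 1 := tdP_drop (lin u) hQ
  rw [vd_eq] at hA2
  have hXi : ∃ i, (MvPolynomial.X i : MvPolynomial ι K) ∉ Q := by
    by_contra hcon
    push Not at hcon
    have h2 : tdP Q ≤ 0 := by
      have h3 : td K (cp Q) ≤ td K (fun i : Empty => (i.elim : MvPolynomial ι K ⧸ Q)) := by
        refine td_le_of_alg K fun i => ?_
        have h4 : cp Q i = 0 := Ideal.Quotient.eq_zero_iff_mem.2 (hcon i)
        rw [h4]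
        exact isAlgebraic_zero
      refine h3.trans ((td_le_card K _).trans ?_)
      simp
    omega
  obtain ⟨i₀, hi₀⟩ := hXi
  haveI : (Q.comap (MvPolynomial.map (algebraMap k K))).IsPrime := Ideal.comap_isPrime _ _
  haveI := cont_prime (k := k) hX.cone hA
  have h2 := hyp_ineq hu Q hlQ i₀ hi₀
  have h3 : tdP (cont k A) ≤ tdP (van A) := tdP_le_map _ _ hAd.symm
  have hle : cont k A ≤ Q.comap (MvPolynomial.map (algebraMap k K)) := Ideal.comap_mono hAQ
  have h4 : cont k A = Q.comap (MvPolynomial.map (algebraMap k K)) := by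
    by_contra hne
    have h5 := tdP_strict (lt_of_le_of_ne hle hne)
    omega
  have hgQ : MvPolynomial.map (algebraMap k K) g' ∉ Q := by
    intro h
    apply hgA
    rw [h4]
    exact h
  have hQh : Q.IsHomogeneous (homogeneousSubmodule ι K) := by
    let Qh : Ideal (MvPolynomial ι K) := (Q.homogeneousCore (homogeneousSubmodule ι K)).toIdeal
    have hQhp : Qh.IsPrime := hQp.homogeneousCore
    have hQh1 : Qh ≤ Q := Ideal.toIdeal_homogeneousCore_le _ _
    have hQh2 : van A ⊔ Ideal.span {lin u} ≤ Qh := by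
      refine sup_le ?_ ?_
      · have h3 := Ideal.homogeneousCore_mono (homogeneousSubmodule ι K) hAQ
        rw [← (van_isHomogeneous hA.closed.1).toIdeal_homogeneousCore_eq_self]
        exact h3
      · rw [Ideal.span_le, Set.singleton_subset_iff]
        exact Ideal.mem_homogeneousCore_of_homogeneous_of_mem ⟨1, lin_hom u⟩ hlQ
    have hQh3 : Q ≤ Qh := hQ.2 ⟨hQhp, hQh2⟩ hQh1
    have h5 : Q = Qh := le_antisymm hQh3 hQh1
    rw [h5]
    exact (Q.homogeneousCore (homogeneousSubmodule ι K)).isHomogeneous
  obtain ⟨hD, hvD⟩ := sub_of_hom_prime hX.cone hFG Q hQp hQh (fun f hf => hAQ (hFA f hf))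
    ⟨g', hg', rfl⟩ hgQ
  refine ⟨_, hD, fun z hz => ⟨?_, hz.1, ?_⟩⟩
  · exact Closed.le_of_van hD.subset hA.closed (by rw [hvD]; exact hAQ) hz
  · rw [← zeros_lin]
    rintro _ rfl
    exact hz.2 _ hlQ

end

end Pool.Agent.R370.HS
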