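import Pool.Agent.R370.HS.A

/-!
# Hyperplane sections and maximal subvarieties of small defect
-/

set_option autoImplicit false
set_option linter.unusedSectionVars false
set_option linter.style.haveILetI false

namespace Pool.Agent.R370.HS

open MvPolynomial Pool.Agent.R948 Pool.Agent.R948.ZP Pool.Agent.R370.JU

section Definitions

variable {K : Type} [Field K] {ι : Type} [Fintype ι]

/-- The defect with respect to a function `h` on special subvarieties. -/
noncomputable def hdefect (𝒮 : Set (Set (ι → K))) (h : Set (ι → K) → ℤ) (A : Set (ι → K)) : ℤ :=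
  h (hull 𝒮 A) - dim A

/-- The maximal elements of the set of the subvarieties of `Y` of defect less than `θ`. -/
def maxBelow (X : Set (ι → K)) (𝒮 : Set (Set (ι → K))) (h : Set (ι → K) → ℤ)
    (Y : Set (ι → K)) (θ : ℤ) : Set (Set (ι → K)) :=
  {A | Subvariety X A ∧ A ⊆ Y ∧ hdefect 𝒮 h A < θ ∧
    ∀ B, Subvariety X B → A ⊆ B → B ⊆ Y → hdefect 𝒮 h B < θ → B = A}

/-- Optimal subvarieties of a closed set with respect to `h`. -/
def OptimalH (X : Set (ι → K)) (𝒮 : Set (Set (ι → K))) (h : Set (ι → K) → ℤ)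
    (Y A : Set (ι → K)) : Prop :=
  Subvariety X A ∧ A ⊆ Y ∧
    ∀ B, Subvariety X B → A ⊂ B → B ⊆ Y → hdefect 𝒮 h A < hdefect 𝒮 h B

end Definitions

/-- `k` is a field of definition of everything -/
structure Adapted (k : Type) [Field k] {K : Type} [Field K] [Algebra k K] {ι : Type} [Fintype ι]
    (X : Set (ι → K)) (𝒮 : Set (Set (ι → K))) (V : Set (ι → K)) : Prop where
  space : ∃ (F : Set (MvPolynomial ι K)) (G' : Set (MvPolynomial ι k)),
    X = zeros F \ zeros (MvPolynomial.map (algebraMap k K) '' G')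
  special : ∀ S ∈ 𝒮, Def k S
  var : Def k V

theorem exists_adapted {K : Type} [Field K] [IsAlgClosed K] {ι : Type} [Fintype ι]
    {X : Set (ι → K)} (hX : QuasiProjective X) {𝒮 : Set (Set (ι → K))} (h𝒮 : 𝒮.Countable)
    (V : Set (ι → K)) :
    ∃ (k : Type) (_ : Field k) (_ : Algebra k K), IsAlgClosed k ∧ Countable k ∧
      Adapted k X 𝒮 V := by
  classical
  obtain ⟨F, G, hFG⟩ := hX.locallyClosed
  obtain ⟨s, hs⟩ := (IsNoetherian.noetherian (Ideal.span G) : (Ideal.span G).FG)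
  have hG : zeros G = zeros (s : Set (MvPolynomial ι K)) := by
    have key : ∀ T : Set (MvPolynomial ι K), zeros T = {x | ∀ f ∈ Ideal.span T, eval x f = 0} := by
      intro T
      ext x
      constructor
      · intro h f hf
        have h1 : Ideal.span T ≤ RingHom.ker (eval x) := by
          rw [Ideal.span_le]
          exact fun g hg => h g hg
        exact h1 hf
      · exact fun h f hf => h f (Ideal.subset_span hf)
    rw [key, key, ← hs]
  obtain ⟨CV, hCV, hCV2⟩ := exists_coeffs (van V)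
  choose CS hCS hCS2 using fun S' : Set (ι → K) => exists_coeffs (van S')
  let Call : Set K := CV ∪ (⋃ S' ∈ 𝒮, CS S') ∪ (⋃ g ∈ s, (g.coeffs : Set K))
  have hCall : Call.Countable := by
    refine (hCV.countable.union (h𝒮.biUnion fun S' _ => (hCS S').countable)).union ?_
    exact (Set.Finite.biUnion s.finite_toSet fun f _ => Finset.finite_toSet _).countable
  obtain ⟨k, _, _, hkc, hkn, hsub⟩ := exists_field Call hCall
  refine ⟨k, inferInstance, inferInstance, hkc, hkn, ⟨F, {g | MvPolynomial.map (algebraMap k K) g ∈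
    s}, ?_⟩, fun S' hS' => hCS2 S' k fun c hc => hsub (Or.inl (Or.inr (Set.mem_biUnion hS' hc))),
    hCV2 k fun c hc => hsub (Or.inl (Or.inl hc))⟩
  have h1 : MvPolynomial.map (algebraMap k K) ''
      {g | MvPolynomial.map (algebraMap k K) g ∈ s} = (s : Set (MvPolynomial ι K)) := by
    ext f
    constructor
    · rintro ⟨g, hg, rfl⟩
      exact hg
    · intro hf
      have h2 : f ∈ Set.range (MvPolynomial.map (algebraMap k K)) := by
        rw [mem_range_map_iff_coeffs_subset]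
        exact fun c hc => hsub (Or.inr (Set.mem_biUnion hf hc))
      obtain ⟨g, rfl⟩ := h2
      exact ⟨g, hf, rfl⟩
  rw [h1, ← hG]
  exact hFG

section

variable {k K : Type} [Field k] [Field K] [Algebra k K] [IsAlgClosed k] [IsAlgClosed K]
  {ι : Type} [Fintype ι] {X : Set (ι → K)} {𝒮 : Set (Set (ι → K))} {h : Set (ι → K) → ℤ}

theorem hull_clo (h𝒮 : SpecialStructure X 𝒮) (hd𝒮 : ∀ S ∈ 𝒮, Def k S) {B : Set (ι → K)}
    (hB : Subvariety X B) : hull 𝒮 (clo k X B) = hull 𝒮 B := by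
  refine Set.Subset.antisymm ?_ (hull_mono (subset_clo hB.subset))
  intro x hx S' hS'
  exact hx S' ⟨hS'.1, clo_subset (h𝒮.subvariety _ hS'.1).closed (hd𝒮 _ hS'.1)
    (cont_anti hS'.2)⟩

theorem def_clo (hX : QuasiProjective X) {B V : Set (ι → K)} (hB : Subvariety X B)
    (hV : Subvariety X V) (hVd : Def k V) (hBV : B ⊆ V) : Def k (clo k X B) := by
  have h1 := van_clo (k := k) hX hB hV hVd hBV
  have h2 : cont k (clo k X B) = cont k B := by
    refine le_antisymm (cont_anti (subset_clo hB.subset)) fun g hg => ?_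
    change MvPolynomial.map (algebraMap k K) g ∈ van (clo k X B)
    rw [h1]
    exact Ideal.mem_map_of_mem _ hg
  unfold Def
  rw [h2, h1]

variable (hX : QuasiProjective X) (h𝒮 : SpecialStructure X 𝒮) {V : Set (ι → K)}
  (hV : Subvariety X V) (hk : Adapted k X 𝒮 V) {u : ι → K} (hu : AlgebraicIndependent k u)

include hX h𝒮 hV hk hu

/-- facts on a component of a generic hyperplane section of a subvariety over `k` -/
theorem comp_facts {A B : Set (ι → K)} (hA : Subvariety X A) (hAV : A ⊆ V) (hAd : Def k A)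
    (hB : IsComponent X B (A ∩ (X ∩ hyp u))) :
    vd B + 1 = vd A ∧ clo k X B = A ∧ hull 𝒮 B = hull 𝒮 A := by
  haveI : Infinite K := IsAlgClosed.instInfinite
  have hBA : B ⊆ A := hB.2.1.trans Set.inter_subset_left
  have hBu : B ⊆ hyp u := (hB.2.1.trans Set.inter_subset_right).trans Set.inter_subset_right
  have hB' := hB
  rw [← zeros_lin] at hB'
  have h1 := vd_cut hX hA (lin_hom u) hB'
  have h2 := vd_clo_hyp (k := k) hX hB.1 hA hAd hBA hu hBu
  have hc := clo_sub (k := k) hX hB.1 hA hAd hBA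
  have hcA : clo k X B ⊆ A := clo_subset hA.closed hAd (cont_anti hBA)
  have h3 := vd_mono hX.cone hc hA hcA
  have h4 : clo k X B = A := eq_of_vd hX.cone hc hA hcA (by omega)
  refine ⟨by omega, h4, ?_⟩
  rw [← hull_clo (k := k) h𝒮 hk.special hB.1, h4]

theorem exists_comp {A : Set (ι → K)} (hA : Subvariety X A) (hAV : A ⊆ V) (hAd : Def k A)
    (hA2 : 2 ≤ vd A) : ∃ B, IsComponent X B (A ∩ (X ∩ hyp u)) := by
  haveI : Infinite K := IsAlgClosed.instInfinite
  obtain ⟨F, G', hFG⟩ := hk.space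
  obtain ⟨B, hB, hBA⟩ := exists_sub_hyp hX hFG hA hAd hA2 hu
  obtain ⟨C, hC, -⟩ := exists_component hX.cone hB hBA
  exact ⟨C, hC⟩

/-- the closure over `k` of a subvariety of the section -/
theorem clo_facts {B : Set (ι → K)} (hB : Subvariety X B) (hBV : B ⊆ V ∩ (X ∩ hyp u)) :
    Subvariety X (clo k X B) ∧ clo k X B ⊆ V ∧ Def k (clo k X B) ∧ vd B + 1 ≤ vd (clo k X B) ∧
      hull 𝒮 (clo k X B) = hull 𝒮 B ∧ B ⊆ clo k X B ∩ (X ∩ hyp u) := by
  have hBV' : B ⊆ V := hBV.trans Set.inter_subset_left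
  have hBu : B ⊆ hyp u := (hBV.trans Set.inter_subset_right).trans Set.inter_subset_right
  exact ⟨clo_sub hX hB hV hk.var hBV', clo_subset hV.closed hk.var (cont_anti hBV'),
    def_clo hX hB hV hk.var hBV', vd_clo_hyp hX hB hV hk.var hBV' hu hBu,
    hull_clo h𝒮 hk.special hB, Set.subset_inter (subset_clo hB.subset)
      (Set.subset_inter hB.subset hBu)⟩

/-- maximal subvarieties of small defect are defined over `k` -/
theorem maxBelow_clo {A : Set (ι → K)} {θ : ℤ} (hA : A ∈ maxBelow X 𝒮 h V θ) :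
    clo k X A = A := by
  haveI : Infinite K := IsAlgClosed.instInfinite
  obtain ⟨hA1, hA2, hA3, hA4⟩ := hA
  have h1 := clo_sub (k := k) hX hA1 hV hk.var hA2
  have h2 : A ⊆ clo k X A := subset_clo hA1.subset
  refine hA4 _ h1 h2 (clo_subset hV.closed hk.var (cont_anti hA2)) ?_
  have h3 := vd_mono hX.cone hA1 h1 h2
  rw [hdefect, hull_clo h𝒮 hk.special hA1, dim_eq]
  rw [hdefect, dim_eq] at hA3
  omega

/-- **Hyperplane sections.** -/
theorem maxBelow_section (θ : ℤ) :
    maxBelow X 𝒮 h (V ∩ (X ∩ hyp u)) (θ + 1) =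
      {B | ∃ A ∈ maxBelow X 𝒮 h V θ, 1 ≤ dim A ∧ IsComponent X B (A ∩ (X ∩ hyp u))} := by
  haveI : Infinite K := IsAlgClosed.instInfinite
  ext B
  constructor
  · rintro ⟨hB1, hB2, hB3, hB4⟩
    obtain ⟨hc1, hc2, hc3, hc4, hc5, hc6⟩ := clo_facts hX h𝒮 hV hk hu hB1 hB2
    obtain ⟨B', hB', hBB'⟩ := exists_component hX.cone hB1 hc6
    obtain ⟨hf1, hf2, hf3⟩ := comp_facts hX h𝒮 hV hk hu hc1 hc2 hc3 hB'
    have hBeq : B' = B := by
      refine hB4 B' hB'.1 hBB' (hB'.2.1.trans (Set.inter_subset_inter_left _ hc2)) ?_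
      have h1 := vd_mono hX.cone hB1 hB'.1 hBB'
      rw [hdefect, hf3, hc5, dim_eq]
      rw [hdefect, dim_eq] at hB3
      omega
    subst hBeq
    refine ⟨clo k X B', ⟨hc1, hc2, ?_, ?_⟩, ?_, hB'⟩
    · rw [hdefect, hc5, dim_eq]
      rw [hdefect, dim_eq] at hB3
      omega
    · intro C hC hcC hCV hCθ
      -- the closure of `C`
      have hC' := clo_sub (k := k) hX hC hV hk.var hCV
      have hCC' : C ⊆ clo k X C := subset_clo hC.subset
      have hC'V : clo k X C ⊆ V := clo_subset hV.closed hk.var (cont_anti hCV)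
      have hC'd := def_clo (k := k) hX hC hV hk.var hCV
      obtain ⟨D, hD, hBD⟩ := exists_component hX.cone hB1 (hc6.trans
        (Set.inter_subset_inter_left (X ∩ hyp u) (hcC.trans hCC')))
      obtain ⟨hg1, hg2, hg3⟩ := comp_facts hX h𝒮 hV hk hu hC' hC'V hC'd hD
      have h2 := vd_mono hX.cone hC hC' hCC'
      have hDeq : D = B' := by
        refine hB4 D hD.1 hBD (hD.2.1.trans (Set.inter_subset_inter_left _ hC'V)) ?_
        rw [hdefect, hg3, hull_clo h𝒮 hk.special hC, dim_eq]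
        rw [hdefect, dim_eq] at hCθ
        omega
      subst hDeq
      refine (eq_of_vd hX.cone hc1 hC hcC ?_).symm
      omega
    · have h1 : 1 ≤ vd B' := by
        obtain ⟨x, hx⟩ := hB1.nonempty
        have h1 := vd_mono hX.cone (line_sub hX.cone hX.zero (hB1.subset hx)) hB1
          (line_subset hB1.closed.1 hx)
        rwa [vd_line hX.cone hX.zero (hB1.subset hx)] at h1
      rw [dim_eq]
      omega
  · rintro ⟨A, hA, hA1, hB⟩
    have hAc := maxBelow_clo hX h𝒮 hV hk hu hA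
    obtain ⟨hA2, hA3, hA4, hA5⟩ := hA
    have hAd : Def k A := hAc ▸ def_clo (k := k) hX hA2 hV hk.var hA3
    obtain ⟨hf1, hf2, hf3⟩ := comp_facts hX h𝒮 hV hk hu hA2 hA3 hAd hB
    refine ⟨hB.1, hB.2.1.trans (Set.inter_subset_inter_left _ hA3), ?_, ?_⟩
    · rw [hdefect, hf3, dim_eq]
      rw [hdefect, dim_eq] at hA4
      omega
    · intro D hD hBD hDV hDθ
      obtain ⟨hc1, hc2, hc3, hc4, hc5, hc6⟩ := clo_facts hX h𝒮 hV hk hu hD hDV
      have h1 : A ⊆ clo k X D := by
        rw [← hf2]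
        exact clo_subset hc1.closed hc3 (cont_anti (hBD.trans (subset_clo hD.subset)))
      have h2 : clo k X D = A := by
        refine hA5 _ hc1 h1 hc2 ?_
        rw [hdefect, hc5, dim_eq]
        rw [hdefect, dim_eq] at hDθ
        omega
      refine (eq_of_vd hX.cone hB.1 hD hBD ?_).symm
      rw [h2] at hc4
      omega

/-- sections of different maximal subvarieties have different components -/
theorem section_injective {A A' B : Set (ι → K)} {θ : ℤ} (hA : A ∈ maxBelow X 𝒮 h V θ)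
    (hA' : A' ∈ maxBelow X 𝒮 h V θ) (hB : IsComponent X B (A ∩ (X ∩ hyp u)))
    (hB' : IsComponent X B (A' ∩ (X ∩ hyp u))) : A = A' := by
  have hAd : Def k A := by
    have h1 := def_clo (k := k) hX hA.1 hV hk.var hA.2.1
    rwa [maxBelow_clo hX h𝒮 hV hk hu hA] at h1
  have hAd' : Def k A' := by
    have h1 := def_clo (k := k) hX hA'.1 hV hk.var hA'.2.1
    rwa [maxBelow_clo hX h𝒮 hV hk hu hA'] at h1
  have h1 := (comp_facts hX h𝒮 hV hk hu hA.1 hA.2.1 hAd hB).2.1
  have h2 := (comp_facts hX h𝒮 hV hk hu hA'.1 hA'.2.1 hAd' hB').2.1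
  rw [← h1, h2]

/-- sections of maximal subvarieties of positive dimension are not empty -/
theorem section_nonempty {A : Set (ι → K)} {θ : ℤ} (hA : A ∈ maxBelow X 𝒮 h V θ)
    (hA1 : 1 ≤ dim A) : ∃ B, IsComponent X B (A ∩ (X ∩ hyp u)) := by
  have hAd : Def k A := by
    have h1 := def_clo (k := k) hX hA.1 hV hk.var hA.2.1
    rwa [maxBelow_clo hX h𝒮 hV hk hu hA] at h1
  refine exists_comp hX h𝒮 hV hk hu hA.1 hA.2.1 hAd ?_
  rw [dim_eq] at hA1
  omega

theorem finite_section_iff (θ : ℤ) :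
    (maxBelow X 𝒮 h (V ∩ (X ∩ hyp u)) (θ + 1)).Finite ↔
      {A | A ∈ maxBelow X 𝒮 h V θ ∧ 1 ≤ dim A}.Finite := by
  classical
  constructor
  · intro hfin
    rw [maxBelow_section hX h𝒮 hV hk hu] at hfin
    have h1 : ∀ A : {A | A ∈ maxBelow X 𝒮 h V θ ∧ 1 ≤ dim A},
        ∃ B, IsComponent X B (A.1 ∩ (X ∩ hyp u)) :=
      fun A => section_nonempty hX h𝒮 hV hk hu A.2.1 A.2.2
    choose g hg using h1
    by_contra hinf
    have hinf2 : Infinite {A | A ∈ maxBelow X 𝒮 h V θ ∧ 1 ≤ dim A} :=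
      Set.infinite_coe_iff.2 hinf
    refine Set.infinite_of_injective_forall_mem (f := g) ?_ (fun A => ?_) hfin
    · intro A A' hAA'
      apply Subtype.ext
      refine section_injective hX h𝒮 hV hk hu A.2.1 A'.2.1 (hg A) ?_
      rw [hAA']
      exact hg A'
    · exact ⟨A.1, A.2.1, A.2.2, hg A⟩
  · intro hfin
    rw [maxBelow_section hX h𝒮 hV hk hu]
    have h1 : {B | ∃ A ∈ maxBelow X 𝒮 h V θ, 1 ≤ dim A ∧ IsComponent X B (A ∩ (X ∩ hyp u))} ⊆
        ⋃ A ∈ {A | A ∈ maxBelow X 𝒮 h V θ ∧ 1 ≤ dim A},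
          {B | IsComponent X B (A ∩ (X ∩ hyp u))} := by
      rintro B ⟨A, hA, hA1, hB⟩
      exact Set.mem_biUnion (x := A) ⟨hA, hA1⟩ hB
    refine (hfin.biUnion fun A hA => ?_).subset h1
    exact components_finite (hA.1.1.closed.inter (closed_hyp' hX.cone u))

end

end Pool.Agent.R370.HS
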