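import Pool.Agent.R370.HS.B

/-!
# Maximal atypical special subvarieties of very general hyperplane sections
-/

set_option autoImplicit false
set_option linter.unusedSectionVars false
set_option linter.style.haveILetI false

namespace Pool.Agent.R370.HS

open MvPolynomial Pool.Agent.R948 Pool.Agent.R948.ZP Pool.Agent.R370.JU

section Definitions

variable {K : Type} [Field K] {ι : Type} [Fintype ι]

/-- `Z` is a special subvariety of the closed set `Y`: a component of the intersection of `Y` with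
the smallest special subvariety containing `Z`. -/
def SpecialIn (X : Set (ι → K)) (𝒮 : Set (Set (ι → K))) (Y Z : Set (ι → K)) : Prop :=
  IsComponent X Z (Y ∩ hull 𝒮 Z)

/-- The maximal elements of the set of the special subvarieties of `Y` of defect less than `θ`. -/
def maxSpecial (X : Set (ι → K)) (𝒮 : Set (Set (ι → K))) (h : Set (ι → K) → ℤ)
    (Y : Set (ι → K)) (θ : ℤ) : Set (Set (ι → K)) :=
  {Z | SpecialIn X 𝒮 Y Z ∧ hdefect 𝒮 h Z < θ ∧
    ∀ Z', SpecialIn X 𝒮 Y Z' → Z ⊆ Z' → hdefect 𝒮 h Z' < θ → Z' = Z}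

/-- The maximal atypical special subvarieties of the subvariety `V`. -/
def maxAtypical (X : Set (ι → K)) (𝒮 : Set (Set (ι → K))) (h : Set (ι → K) → ℤ)
    (V : Set (ι → K)) : Set (Set (ι → K)) :=
  maxSpecial X 𝒮 h V (hdefect 𝒮 h V)

end Definitions

section

variable {K : Type} [Field K] {ι : Type} [Fintype ι] {X : Set (ι → K)} {𝒮 : Set (Set (ι → K))}
  {h : Set (ι → K) → ℤ}

theorem maxSpecial_eq [Infinite K] (hX : IsCone X) (h𝒮 : SpecialStructure X 𝒮)
    {T Y : Set (ι → K)} (hT : T ∈ 𝒮) (hYT : Y ⊆ T) (θ : ℤ) :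
    maxSpecial X 𝒮 h Y θ = maxBelow X 𝒮 h Y θ := by
  have key : ∀ B, Subvariety X B → B ⊆ Y → hdefect 𝒮 h B < θ →
      ∃ Z, SpecialIn X 𝒮 Y Z ∧ B ⊆ Z ∧ hdefect 𝒮 h Z < θ := by
    intro B hB hBY hBθ
    obtain ⟨Z, hZ, hBZ⟩ := exists_component hX hB (Set.subset_inter hBY (subset_hull (𝒮 := 𝒮) B))
    have hh := hull_mem hX h𝒮 hB hT (hBY.trans hYT)
    have h1 : hull 𝒮 Z = hull 𝒮 B := Set.Subset.antisymm
      (hull_subset hh (hZ.2.1.trans Set.inter_subset_right)) (hull_mono hBZ)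
    have h2 := vd_mono hX hB hZ.1 hBZ
    refine ⟨Z, ?_, hBZ, ?_⟩
    · unfold SpecialIn
      rw [h1]
      exact hZ
    · rw [hdefect, h1, dim_eq]
      rw [hdefect, dim_eq] at hBθ
      omega
  ext Z
  constructor
  · rintro ⟨hZ, hZθ, hmax⟩
    refine ⟨hZ.1, hZ.2.1.trans Set.inter_subset_left, hZθ, fun B hB hZB hBY hBθ => ?_⟩
    obtain ⟨Z', hZ', hBZ', hZ'θ⟩ := key B hB hBY hBθ
    have h1 := hmax Z' hZ' (hZB.trans hBZ') hZ'θ
    exact Set.Subset.antisymm (h1 ▸ hBZ') hZB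
  · rintro ⟨hZ, hZY, hZθ, hmax⟩
    obtain ⟨Z', hZ', hZZ', hZ'θ⟩ := key Z hZ hZY hZθ
    have h1 := hmax Z' hZ'.1 hZZ' (hZ'.2.1.trans Set.inter_subset_left) hZ'θ
    subst h1
    exact ⟨hZ', hZθ, fun Z'' hZ'' hsub hθ => hmax Z'' hZ''.1 hsub
      (hZ''.2.1.trans Set.inter_subset_left) hθ⟩

end

section

variable {K : Type} [Field K] [IsAlgClosed K] [Uncountable K] {ι : Type} [Fintype ι]
  {X : Set (ι → K)} {𝒮 : Set (Set (ι → K))}

/-- very general points are algebraically independent over a countable field -/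
theorem exists_very_general (hX : QuasiProjective X) (h𝒮 : 𝒮.Countable) (V : Set (ι → K)) :
    ∃ 𝒢 : Set (MvPolynomial ι K), 𝒢.Countable ∧ 0 ∉ 𝒢 ∧
      ∃ (k : Type) (_ : Field k) (_ : Algebra k K) (_ : IsAlgClosed k), Adapted k X 𝒮 V ∧
        ∀ u : ι → K, (∀ P ∈ 𝒢, eval u P ≠ 0) → AlgebraicIndependent k u := by
  obtain ⟨k, _, _, hkc, hkn, hk⟩ := exists_adapted hX h𝒮 V
  haveI : Countable (MvPolynomial ι k) := by
    rw [← Cardinal.mk_le_aleph0_iff]
    refine (MvPolynomial.cardinalMk_le_max (σ := ι) (R := k)).trans ?_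
    rw [max_le_iff, max_le_iff]
    exact ⟨⟨Cardinal.mk_le_aleph0_iff.2 hkn, Cardinal.mk_le_aleph0⟩, le_rfl⟩
  refine ⟨MvPolynomial.map (algebraMap k K) '' {0}ᶜ, (Set.to_countable _).image _, ?_, k,
    inferInstance, inferInstance, hkc, hk, fun u hu => ?_⟩
  · rintro ⟨p, hp, hp0⟩
    apply hp
    apply MvPolynomial.map_injective _ (algebraMap k K).injective
    rw [hp0, map_zero]
  · rw [algebraicIndependent_iff]
    intro p hp
    by_contra hne
    refine hu _ ⟨p, hne, rfl⟩ ?_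
    rw [eval_map_eq]
    exact hp

end

end Pool.Agent.R370.HS
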