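import Pool.Agent.R370.HS.C

/-!
# The theorem on very general hyperplane sections
-/

set_option autoImplicit false
set_option linter.unusedSectionVars false
set_option linter.style.haveILetI false

namespace Pool.Agent.R370.HS

open MvPolynomial Pool.Agent.R948 Pool.Agent.R948.ZP Pool.Agent.R370.JU

variable {K : Type} [Field K] [IsAlgClosed K] [Uncountable K] {ι : Type} [Fintype ι]

theorem sections {X : Set (ι → K)} (hX : QuasiProjective X) {𝒮 : Set (Set (ι → K))}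
    (h𝒮 : SpecialStructure X 𝒮) {T V : Set (ι → K)} (hT : T ∈ 𝒮) (hV : Subvariety X V)
    (hVT : V ⊆ T) :
    ∃ 𝒢 : Set (MvPolynomial ι K), 𝒢.Countable ∧ 0 ∉ 𝒢 ∧
      ∀ u : ι → K, (∀ P ∈ 𝒢, eval u P ≠ 0) →
        (1 ≤ dim V → ∃ V', IsComponent X V' (V ∩ hyp u)) ∧
        (∀ V', IsComponent X V' (V ∩ hyp u) → dim V' = dim V - 1 ∧ hull 𝒮 V' = hull 𝒮 V) ∧
        ∀ h : Set (ι → K) → ℤ,
          (∀ θ : ℤ, maxSpecial X 𝒮 h (V ∩ hyp u) (θ + 1) =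
            {B | ∃ A ∈ maxSpecial X 𝒮 h V θ, 1 ≤ dim A ∧ IsComponent X B (A ∩ hyp u)}) ∧
          (∀ θ : ℤ, ∀ A ∈ maxSpecial X 𝒮 h V θ, 1 ≤ dim A → ∃ B, IsComponent X B (A ∩ hyp u)) ∧
          (∀ θ : ℤ, (maxSpecial X 𝒮 h (V ∩ hyp u) (θ + 1)).Finite ↔
            {A | A ∈ maxSpecial X 𝒮 h V θ ∧ 1 ≤ dim A}.Finite) ∧
          (Subvariety X (V ∩ hyp u) → ((maxAtypical X 𝒮 h (V ∩ hyp u)).Finite ↔
            {A | A ∈ maxAtypical X 𝒮 h V ∧ 1 ≤ dim A}.Finite)) := by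
  haveI : Infinite K := IsAlgClosed.instInfinite
  obtain ⟨𝒢, hc, h0, k, _, _, _, hk, hind⟩ := exists_very_general hX h𝒮.countable V
  refine ⟨𝒢, hc, h0, fun u hu' => ?_⟩
  have hu := hind u hu'
  have e : ∀ A : Set (ι → K), A ⊆ X → A ∩ hyp u = A ∩ (X ∩ hyp u) := by
    intro A hA
    rw [← Set.inter_assoc, Set.inter_eq_left.2 hA]
  have eV := e V hV.subset
  have hYT : V ∩ (X ∩ hyp u) ⊆ T := Set.inter_subset_left.trans hVT
  have hcomp : ∀ V', IsComponent X V' (V ∩ hyp u) → dim V' = dim V - 1 ∧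
      hull 𝒮 V' = hull 𝒮 V := by
    intro V' hV'
    rw [eV] at hV'
    obtain ⟨h1, -, h2⟩ := comp_facts hX h𝒮 hV hk hu hV le_rfl hk.var hV'
    exact ⟨by rw [dim_eq, dim_eq]; omega, h2⟩
  refine ⟨fun h1 => ?_, hcomp, fun h => ?_⟩
  · rw [eV]
    refine exists_comp hX h𝒮 hV hk hu hV le_rfl hk.var ?_
    rw [dim_eq] at h1
    omega
  have hfin : ∀ θ : ℤ, (maxSpecial X 𝒮 h (V ∩ hyp u) (θ + 1)).Finite ↔
      {A | A ∈ maxSpecial X 𝒮 h V θ ∧ 1 ≤ dim A}.Finite := by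
    intro θ
    rw [eV, maxSpecial_eq hX.cone h𝒮 hT hYT, maxSpecial_eq hX.cone h𝒮 hT hVT]
    exact finite_section_iff hX h𝒮 hV hk hu θ
  refine ⟨fun θ => ?_, fun θ A hA hA1 => ?_, hfin, fun hirr => ?_⟩
  · rw [eV, maxSpecial_eq hX.cone h𝒮 hT hYT, maxSpecial_eq hX.cone h𝒮 hT hVT,
      maxBelow_section hX h𝒮 hV hk hu]
    ext B
    constructor
    · rintro ⟨A, hA, hA1, hB⟩
      exact ⟨A, hA, hA1, by rw [e A hA.1.subset]; exact hB⟩
    · rintro ⟨A, hA, hA1, hB⟩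
      exact ⟨A, hA, hA1, by rw [e A hA.1.subset] at hB; exact hB⟩
  · rw [maxSpecial_eq hX.cone h𝒮 hT hVT] at hA
    rw [e A hA.1.subset]
    exact section_nonempty hX h𝒮 hV hk hu hA hA1
  · have h1 : IsComponent X (V ∩ hyp u) (V ∩ hyp u) :=
      ⟨hirr, le_rfl, fun D _ hD hD2 => Set.Subset.antisymm hD2 hD⟩
    obtain ⟨h2, h3⟩ := hcomp _ h1
    have h4 : hdefect 𝒮 h (V ∩ hyp u) = hdefect 𝒮 h V + 1 := by
      rw [hdefect, hdefect, h2, h3]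
      ring
    unfold maxAtypical
    rw [h4]
    exact hfin _

end Pool.Agent.R370.HS
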