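import Pool.Agent.R370.HS.D

/-!
# Iterated hyperplane sections: reduction of the codimension
-/

set_option autoImplicit false
set_option linter.unusedSectionVars false
set_option linter.style.haveILetI false

namespace Pool.Agent.R370.HS

open MvPolynomial Pool.Agent.R948 Pool.Agent.R948.ZP Pool.Agent.R370.JU

section

variable {k K : Type} [Field k] [Field K] [Algebra k K] [IsAlgClosed k] [IsAlgClosed K]
  {ι : Type} [Fintype ι] {X : Set (ι → K)} {𝒮 : Set (Set (ι → K))} {h : Set (ι → K) → ℤ}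
  (hX : QuasiProjective X) (h𝒮 : SpecialStructure X 𝒮) {V : Set (ι → K)}
  (hV : Subvariety X V) (hk : Adapted k X 𝒮 V) {u : ι → K} (hu : AlgebraicIndependent k u)

include hX h𝒮 hV hk hu

/-- optimal subvarieties are defined over `k` -/
theorem optimalH_clo {A : Set (ι → K)} (hA : OptimalH X 𝒮 h V A) : clo k X A = A := by
  haveI : Infinite K := IsAlgClosed.instInfinite
  obtain ⟨hA1, hA2, hA3⟩ := hA
  have h1 := clo_sub (k := k) hX hA1 hV hk.var hA2
  have h2 : A ⊆ clo k X A := subset_clo hA1.subset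
  by_contra hne
  have h4 := hA3 _ h1 (Set.ssubset_iff_subset_ne.2 ⟨h2, Ne.symm hne⟩)
    (clo_subset hV.closed hk.var (cont_anti hA2))
  have h3 := vd_mono hX.cone hA1 h1 h2
  rw [hdefect, hdefect, hull_clo h𝒮 hk.special hA1, dim_eq, dim_eq] at h4
  omega

/-- sections of optimal subvarieties are optimal -/
theorem optimalH_section {A B : Set (ι → K)} (hA : OptimalH X 𝒮 h V A)
    (hB : IsComponent X B (A ∩ (X ∩ hyp u))) : OptimalH X 𝒮 h (V ∩ (X ∩ hyp u)) B := by
  haveI : Infinite K := IsAlgClosed.instInfinite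
  have hAc := optimalH_clo hX h𝒮 hV hk hu hA
  obtain ⟨hA2, hA3, hA5⟩ := hA
  have hAd : Def k A := hAc ▸ def_clo (k := k) hX hA2 hV hk.var hA3
  obtain ⟨hf1, hf2, hf3⟩ := comp_facts hX h𝒮 hV hk hu hA2 hA3 hAd hB
  refine ⟨hB.1, hB.2.1.trans (Set.inter_subset_inter_left _ hA3), fun D hD hBD hDV => ?_⟩
  obtain ⟨hc1, hc2, hc3, hc4, hc5, hc6⟩ := clo_facts hX h𝒮 hV hk hu hD hDV
  have h1 : A ⊆ clo k X D := by
    rw [← hf2]
    exact clo_subset hc1.closed hc3 (cont_anti (hBD.subset.trans (subset_clo hD.subset)))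
  have h6 := vd_strict hX.cone hB.1 hD hBD
  have h7 : A ≠ clo k X D := by
    intro he
    rw [← he] at hc4
    omega
  have h8 := hA5 _ hc1 (Set.ssubset_iff_subset_ne.2 ⟨h1, h7⟩) hc2
  rw [hdefect, hdefect, hc5, dim_eq, dim_eq] at h8
  rw [hdefect, hdefect, hf3, dim_eq, dim_eq]
  omega

end

/-- The optimal subvarieties of `V` (with respect to `h`) of codimension `d` in `V`, such that the
smallest special subvariety containing them belongs to `Φ`. -/
def optimalCodim {K : Type} [Field K] {ι : Type} [Fintype ι] (X : Set (ι → K))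
    (𝒮 : Set (Set (ι → K))) (h : Set (ι → K) → ℤ) (Φ : Set (Set (ι → K))) (V : Set (ι → K))
    (d : ℤ) : Set (Set (ι → K)) :=
  {A | OptimalH X 𝒮 h V A ∧ dim V - dim A = d ∧ hull 𝒮 A ∈ Φ}

variable {K : Type} [Field K] [IsAlgClosed K] [Uncountable K] {ι : Type} [Fintype ι]
  {X : Set (ι → K)} {𝒮 : Set (Set (ι → K))} {h : Set (ι → K) → ℤ} {Φ : Set (Set (ι → K))}

/-- restriction to a smaller closed set -/
theorem OptimalH.mono {Y Y' A : Set (ι → K)} (hA : OptimalH X 𝒮 h Y A) (h1 : A ⊆ Y')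
    (h2 : Y' ⊆ Y) : OptimalH X 𝒮 h Y' A :=
  ⟨hA.1, h1, fun B hB hAB hBY => hA.2.2 B hB hAB (hBY.trans h2)⟩

/-- one step: infinitely many optimal subvarieties of codimension `d` and positive dimension give
infinitely many on a component of a hyperplane section -/
theorem section_step (hX : QuasiProjective X) (h𝒮 : SpecialStructure X 𝒮) {V : Set (ι → K)}
    (hV : Subvariety X V) (d : ℤ) (hinf : (optimalCodim X 𝒮 h Φ V d).Infinite)
    (hd : d < dim V) : ∃ V', Subvariety X V' ∧ V' ⊆ V ∧ dim V' = dim V - 1 ∧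
      hull 𝒮 V' = hull 𝒮 V ∧ (optimalCodim X 𝒮 h Φ V' d).Infinite := by
  classical
  haveI : Infinite K := IsAlgClosed.instInfinite
  obtain ⟨k', _, _, hkc', hkn', hk'⟩ := exists_adapted hX h𝒮.countable V
  obtain ⟨u, hu⟩ := exists_indep (k := k') (K := K) ι
  -- the components
  have hYc : Closed X (V ∩ (X ∩ hyp u)) := hV.closed.inter (closed_hyp' hX.cone u)
  have hA1 : ∀ A : (optimalCodim X 𝒮 h Φ V d), ∃ B, IsComponent X B (A.1 ∩ (X ∩ hyp u)) := by
    rintro ⟨A, hA, hAd, -⟩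
    have hAc := optimalH_clo hX h𝒮 hV hk' hu hA
    have hAdef : Def k' A := hAc ▸ def_clo (k := k') hX hA.1 hV hk'.var hA.2.1
    refine exists_comp hX h𝒮 hV hk' hu hA.1 hA.2.1 hAdef ?_
    have h1 : 1 ≤ dim A := by omega
    rw [dim_eq] at h1
    change 2 ≤ vd A
    omega
  choose g hg using hA1
  have hgopt : ∀ A, OptimalH X 𝒮 h (V ∩ (X ∩ hyp u)) (g A) := fun A =>
    optimalH_section hX h𝒮 hV hk' hu A.2.1 (hg A)
  have hfacts : ∀ A : (optimalCodim X 𝒮 h Φ V d), vd (g A) + 1 = vd A.1 ∧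
      clo k' X (g A) = A.1 ∧ hull 𝒮 (g A) = hull 𝒮 A.1 := by
    intro A
    have hAc := optimalH_clo hX h𝒮 hV hk' hu A.2.1
    have hAdef : Def k' A.1 := by
      have h1 := def_clo (k := k') hX A.2.1.1 hV hk'.var A.2.1.2.1
      rwa [hAc] at h1
    have h1 := comp_facts hX h𝒮 hV hk' hu A.2.1.1 A.2.1.2.1 hAdef (hg A)
    exact h1
  have hginj : Function.Injective g := by
    intro A A' hAA'
    apply Subtype.ext
    rw [← (hfacts A).2.1, ← (hfacts A').2.1, hAA']
  have hcov : ∀ A, ∃ V' ∈ {C | IsComponent X C (V ∩ (X ∩ hyp u))}, g A ⊆ V' := by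
    intro A
    obtain ⟨V', hV', hgV'⟩ := exists_component hX.cone (hgopt A).1 (hgopt A).2.1
    exact ⟨V', hV', hgV'⟩
  have hone : ∃ V' ∈ {C | IsComponent X C (V ∩ (X ∩ hyp u))}, {A | g A ⊆ V'}.Infinite := by
    by_contra hcon
    push Not at hcon
    have h1 : (⋃ V' ∈ {C | IsComponent X C (V ∩ (X ∩ hyp u))}, {A | g A ⊆ V'}).Finite :=
      (components_finite hYc).biUnion fun W hW => hcon W hW
    haveI : Infinite (optimalCodim X 𝒮 h Φ V d) := Set.infinite_coe_iff.2 hinf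
    refine Set.infinite_univ (α := optimalCodim X 𝒮 h Φ V d) (h1.subset fun A _ => ?_)
    obtain ⟨W, hW, hpW⟩ := hcov A
    exact Set.mem_biUnion hW hpW
  obtain ⟨V', hV', hinf'⟩ := hone
  obtain ⟨hc1, hc2, hc3⟩ := comp_facts hX h𝒮 hV hk' hu hV le_rfl hk'.var hV'
  refine ⟨V', hV'.1, hV'.2.1.trans Set.inter_subset_left, by rw [dim_eq, dim_eq]; omega, hc3, ?_⟩
  refine (hinf'.image (hginj.injOn)).mono ?_
  rintro _ ⟨A, hA, rfl⟩
  refine ⟨(hgopt A).mono hA hV'.2.1, ?_, ?_⟩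
  · have h1 := (hfacts A).1
    have h2 := A.2.2.1
    rw [dim_eq, dim_eq] at h2 ⊢
    omega
  · rw [(hfacts A).2.2]
    exact A.2.2.2

/-- reduction to points -/
theorem codim_step (hX : QuasiProjective X) (h𝒮 : SpecialStructure X 𝒮) (d : ℤ)
    (T : Set (ι → K))
    (hp : ∀ V, Subvariety X V → hull 𝒮 V = T → dim V = d → (optimalCodim X 𝒮 h Φ V d).Finite) :
    ∀ V, Subvariety X V → hull 𝒮 V = T → (optimalCodim X 𝒮 h Φ V d).Finite := by
  haveI : Infinite K := IsAlgClosed.instInfinite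
  suffices H : ∀ n : ℕ, ∀ V, Subvariety X V → hull 𝒮 V = T → vd V = n →
      (optimalCodim X 𝒮 h Φ V d).Finite from fun V hV hVT => H _ V hV hVT rfl
  intro n
  induction n with
  | zero =>
    intro V hV _ hn
    obtain ⟨x, hx⟩ := hV.nonempty
    have h1 := vd_mono hX.cone (line_sub hX.cone hX.zero (hV.subset hx)) hV
      (line_subset hV.closed.1 hx)
    rw [vd_line hX.cone hX.zero (hV.subset hx)] at h1
    omega
  | succ n ih =>
    intro V hV hVT hn
    by_contra hinf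
    rcases lt_trichotomy d (dim V) with hlt | heq | hgt
    · obtain ⟨V', hV', hsub, hd', hh', hinf'⟩ := section_step hX h𝒮 hV d hinf hlt
      refine hinf' (ih V' hV' (hh'.trans hVT) ?_)
      rw [dim_eq, dim_eq] at hd'
      omega
    · exact hinf (hp V hV hVT heq.symm)
    · apply hinf
      have h1 : optimalCodim X 𝒮 h Φ V d = ∅ := by
        rw [Set.eq_empty_iff_forall_notMem]
        rintro A ⟨hA, hAd, -⟩
        obtain ⟨x, hx⟩ := hA.1.nonempty
        have h1 := vd_mono hX.cone (line_sub hX.cone hX.zero (hA.1.subset hx)) hA.1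
          (line_subset hA.1.closed.1 hx)
        rw [vd_line hX.cone hX.zero (hA.1.subset hx)] at h1
        rw [dim_eq A] at hAd
        omega
      rw [h1]
      exact Set.finite_empty

/-- The subvarieties of codimension one in `V` such that the smallest special subvariety containing
them belongs to `Φ`. -/
def divisorsWith {K : Type} [Field K] {ι : Type} [Fintype ι] (X : Set (ι → K))
    (𝒮 : Set (Set (ι → K))) (Φ : Set (Set (ι → K))) (V : Set (ι → K)) : Set (Set (ι → K)) :=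
  {A | Subvariety X A ∧ A ⊆ V ∧ dim A = dim V - 1 ∧ hull 𝒮 A ∈ Φ}

/-- The subvarieties of codimension one in `V` which are contained in special subvarieties of `T`
of codimension at least two in `T`. -/
def atypicalDivisors {K : Type} [Field K] {ι : Type} [Fintype ι] (X : Set (ι → K))
    (𝒮 : Set (Set (ι → K))) (T V : Set (ι → K)) : Set (Set (ι → K)) :=
  {A | Subvariety X A ∧ A ⊆ V ∧ dim A = dim V - 1 ∧
    ∃ Y ∈ 𝒮, Y ⊆ T ∧ dim Y ≤ dim T - 2 ∧ A ⊆ Y}

theorem divisorsWith_eq (hX : QuasiProjective X) {T V : Set (ι → K)} (hV : Subvariety X V)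
    (hVT : hull 𝒮 V = T) (hΦ : ∀ S ∈ Φ, dim S ≤ dim T - 2) :
    divisorsWith X 𝒮 Φ V = optimalCodim X 𝒮 dim Φ V 1 := by
  haveI : Infinite K := IsAlgClosed.instInfinite
  ext A
  constructor
  · rintro ⟨hA, hAV, hAd, hAΦ⟩
    refine ⟨⟨hA, hAV, fun B hB hAB hBV => ?_⟩, by omega, hAΦ⟩
    have h1 := vd_strict hX.cone hA hB hAB
    have h2 : B = V := by
      refine eq_of_vd hX.cone hB hV hBV ?_
      rw [dim_eq, dim_eq] at hAd
      omega
    have h3 := hΦ _ hAΦ
    rw [h2, hdefect, hdefect, hVT]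
    omega
  · rintro ⟨hA, hAd, hAΦ⟩
    exact ⟨hA.1, hA.2.1, by omega, hAΦ⟩

theorem atypicalDivisors_eq (hX : QuasiProjective X) (h𝒮 : SpecialStructure X 𝒮)
    {T V : Set (ι → K)} (hT : T ∈ 𝒮) (hVT : V ⊆ T) :
    atypicalDivisors X 𝒮 T V = divisorsWith X 𝒮 {S | dim S ≤ dim T - 2} V := by
  haveI : Infinite K := IsAlgClosed.instInfinite
  ext A
  constructor
  · rintro ⟨hA, hAV, hAd, Y, hY, -, hYd, hAY⟩
    have h1 := vd_mono hX.cone (h𝒮.subvariety _ (hull_mem hX.cone h𝒮 hA hY hAY))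
      (h𝒮.subvariety _ hY) (hull_subset hY hAY)
    refine ⟨hA, hAV, hAd, ?_⟩
    change dim (hull 𝒮 A) ≤ dim T - 2
    rw [dim_eq] at hYd ⊢
    omega
  · rintro ⟨hA, hAV, hAd, hh⟩
    exact ⟨hA, hAV, hAd, _, hull_mem hX.cone h𝒮 hA hT (hAV.trans hVT),
      hull_subset hT (hAV.trans hVT), hh, subset_hull A⟩

/-- **Curves and divisors.** -/
theorem curves_divisors (hX : QuasiProjective X) (h𝒮 : SpecialStructure X 𝒮) {T : Set (ι → K)}
    (hT : T ∈ 𝒮) :
    ((∀ C, Subvariety X C → dim C = 1 → hull 𝒮 C = T → (atypicalDivisors X 𝒮 T C).Finite) ↔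
      (∀ V, Subvariety X V → hull 𝒮 V = T → (atypicalDivisors X 𝒮 T V).Finite)) ∧
    (∀ Φ : Set (Set (ι → K)), (∀ S ∈ Φ, dim S ≤ dim T - 2) →
      ((∀ C, Subvariety X C → dim C = 1 → hull 𝒮 C = T → (divisorsWith X 𝒮 Φ C).Finite) ↔
        (∀ V, Subvariety X V → hull 𝒮 V = T → (divisorsWith X 𝒮 Φ V).Finite))) ∧
    (∀ (h : Set (ι → K) → ℤ) (Φ : Set (Set (ι → K))) (d : ℤ),
      (∀ V, Subvariety X V → dim V = d → hull 𝒮 V = T → (optimalCodim X 𝒮 h Φ V d).Finite) ↔
        (∀ V, Subvariety X V → hull 𝒮 V = T → (optimalCodim X 𝒮 h Φ V d).Finite)) := by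
  have h3 : ∀ (h : Set (ι → K) → ℤ) (Φ : Set (Set (ι → K))) (d : ℤ),
      (∀ V, Subvariety X V → dim V = d → hull 𝒮 V = T → (optimalCodim X 𝒮 h Φ V d).Finite) ↔
        (∀ V, Subvariety X V → hull 𝒮 V = T → (optimalCodim X 𝒮 h Φ V d).Finite) :=
    fun h Φ d => ⟨fun hp => codim_step hX h𝒮 d T fun V hV hVT hVd => hp V hV hVd hVT,
      fun hp V hV _ hVT => hp V hV hVT⟩
  have h2 : ∀ Φ : Set (Set (ι → K)), (∀ S ∈ Φ, dim S ≤ dim T - 2) →
      ((∀ C, Subvariety X C → dim C = 1 → hull 𝒮 C = T → (divisorsWith X 𝒮 Φ C).Finite) ↔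
        (∀ V, Subvariety X V → hull 𝒮 V = T → (divisorsWith X 𝒮 Φ V).Finite)) := by
    intro Φ hΦ
    constructor
    · intro hp V hV hVT
      rw [divisorsWith_eq hX hV hVT hΦ]
      refine (h3 dim Φ 1).1 (fun C hC hC1 hCT => ?_) V hV hVT
      rw [← divisorsWith_eq hX hC hCT hΦ]
      exact hp C hC hC1 hCT
    · exact fun hp C hC _ hCT => hp C hC hCT
  refine ⟨?_, h2, h3⟩
  constructor
  · intro hp V hV hVT
    rw [atypicalDivisors_eq hX h𝒮 hT (hVT ▸ subset_hull V)]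
    refine (h2 {S | dim S ≤ dim T - 2} fun S hS => hS).1 (fun C hC hC1 hCT => ?_) V hV hVT
    rw [← atypicalDivisors_eq hX h𝒮 hT (hCT ▸ subset_hull C)]
    exact hp C hC hC1 hCT
  · exact fun hp C hC _ hCT => hp C hC hCT

end Pool.Agent.R370.HS
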