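import Pool.Agent.R370.HS.E

/-!
# Forms of the Zilber–Pink conjecture with a general Hodge dimension function
-/

set_option autoImplicit false
set_option linter.unusedSectionVars false
set_option linter.style.haveILetI false

namespace Pool.Agent.R370.HS

open MvPolynomial Pool.Agent.R948 Pool.Agent.R948.ZP Pool.Agent.R370.JU

section Definitions

variable {K : Type} [Field K] {ι : Type} [Fintype ι]

/-- `Z` is an atypical special subvariety of `V`. -/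
def AtypicalSpecial (X : Set (ι → K)) (𝒮 : Set (Set (ι → K))) (h : Set (ι → K) → ℤ)
    (V Z : Set (ι → K)) : Prop :=
  SpecialIn X 𝒮 V Z ∧ hdefect 𝒮 h Z < hdefect 𝒮 h V

/-- The atypical special points are not Zariski dense, for every subvariety. -/
def PointsNotDense (X : Set (ι → K)) (𝒮 : Set (Set (ι → K))) (h : Set (ι → K) → ℤ) : Prop :=
  ∀ T ∈ 𝒮, ∀ V, Subvariety X V → V ⊆ T →
    ∃ W, Closed X W ∧ ¬ V ⊆ W ∧ ∀ Z, AtypicalSpecial X 𝒮 h V Z → dim Z = 0 → Z ⊆ W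

/-- The union of the atypical special subvarieties is not Zariski dense, for every subvariety. -/
def AtypicalNotDense (X : Set (ι → K)) (𝒮 : Set (Set (ι → K))) (h : Set (ι → K) → ℤ) : Prop :=
  ∀ T ∈ 𝒮, ∀ V, Subvariety X V → V ⊆ T →
    ∃ W, Closed X W ∧ ¬ V ⊆ W ∧ ∀ Z, AtypicalSpecial X 𝒮 h V Z → Z ⊆ W

/-- Every subvariety has only finitely many maximal atypical special subvarieties. -/
def FinitelyManyMaximal (X : Set (ι → K)) (𝒮 : Set (Set (ι → K))) (h : Set (ι → K) → ℤ) : Prop :=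
  ∀ T ∈ 𝒮, ∀ V, Subvariety X V → V ⊆ T → (maxAtypical X 𝒮 h V).Finite

/-- Every subvariety has only finitely many optimal subvarieties. -/
def FinitelyManyOptimal (X : Set (ι → K)) (𝒮 : Set (Set (ι → K))) (h : Set (ι → K) → ℤ) : Prop :=
  ∀ T ∈ 𝒮, ∀ V, Subvariety X V → V ⊆ T → {A | OptimalH X 𝒮 h V A}.Finite

/-- The question with singular loci: for every subvariety `V` and every closed set `Σ`, the special
subvarieties of `V` which are atypical or contained in `Σ` are contained in finitely many of them. -/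
def WithSingularLocus (X : Set (ι → K)) (𝒮 : Set (Set (ι → K))) (h : Set (ι → K) → ℤ) : Prop :=
  ∀ T ∈ 𝒮, ∀ V, Subvariety X V → V ⊆ T → ∀ E₀, Closed X E₀ →
    ∃ 𝓕 : Set (Set (ι → K)), 𝓕.Finite ∧
      (∀ Z ∈ 𝓕, SpecialIn X 𝒮 V Z ∧ (hdefect 𝒮 h Z < hdefect 𝒮 h V ∨ Z ⊆ E₀)) ∧
      ∀ Z, SpecialIn X 𝒮 V Z → (hdefect 𝒮 h Z < hdefect 𝒮 h V ∨ Z ⊆ E₀) → ∃ Z' ∈ 𝓕, Z ⊆ Z'

/-- The dimension inequality: the codimension of a special subvariety `Z` of `V` is at most the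
codimension of its Mumford–Tate domain. -/
def DimIneq (X : Set (ι → K)) (𝒮 : Set (Set (ι → K))) (h : Set (ι → K) → ℤ) : Prop :=
  ∀ V, Subvariety X V → ∀ Z, SpecialIn X 𝒮 V Z → hdefect 𝒮 h Z ≤ hdefect 𝒮 h V

end Definitions

variable {K : Type} [Field K] [IsAlgClosed K] [Uncountable K] {ι : Type} [Fintype ι]
  {X : Set (ι → K)} {𝒮 : Set (Set (ι → K))} {h : Set (ι → K) → ℤ}

theorem maxBelow_optimal {Y A : Set (ι → K)} {θ : ℤ} (hA : A ∈ maxBelow X 𝒮 h Y θ) :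
    OptimalH X 𝒮 h Y A := by
  refine ⟨hA.1, hA.2.1, fun B hB hAB hBY => ?_⟩
  by_contra hcon
  have h1 := hA.2.2.2 B hB hAB.subset hBY (by have := hA.2.2.1; omega)
  exact hAB.ne h1.symm

theorem optimalH_special (hX : QuasiProjective X) (h𝒮 : SpecialStructure X 𝒮)
    {T V A : Set (ι → K)} (hT : T ∈ 𝒮) (hVT : V ⊆ T) (hA : OptimalH X 𝒮 h V A) :
    SpecialIn X 𝒮 V A := by
  haveI : Infinite K := IsAlgClosed.instInfinite
  have hh := hull_mem hX.cone h𝒮 hA.1 hT (hA.2.1.trans hVT)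
  refine ⟨hA.1, Set.subset_inter hA.2.1 (subset_hull A), fun D hD hAD hDV => ?_⟩
  by_contra hne
  have hAD' : A ⊂ D := Set.ssubset_iff_subset_ne.2 ⟨hAD, Ne.symm hne⟩
  have h1 := hA.2.2 D hD hAD' (hDV.trans Set.inter_subset_left)
  have h2 := vd_strict hX.cone hA.1 hD hAD'
  have h3 : hull 𝒮 D = hull 𝒮 A := Set.Subset.antisymm
    (hull_subset hh (hDV.trans Set.inter_subset_right)) (hull_mono hAD)
  rw [hdefect, hdefect, h3, dim_eq, dim_eq] at h1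
  omega

theorem exists_maxBelow (hX : QuasiProjective X) {Y A : Set (ι → K)} {θ : ℤ}
    (hA : Subvariety X A) (hAY : A ⊆ Y) (hAθ : hdefect 𝒮 h A < θ) :
    ∃ B ∈ maxBelow X 𝒮 h Y θ, A ⊆ B := by
  haveI : Infinite K := IsAlgClosed.instInfinite
  obtain ⟨B, hB, hAB, ⟨hBY, hBθ⟩, hmax⟩ := exists_maximal hX.cone
    (fun B => B ⊆ Y ∧ hdefect 𝒮 h B < θ) hA ⟨hAY, hAθ⟩
  exact ⟨B, ⟨hB, hBY, hBθ, fun C hC hBC hCY hCθ => hmax C hC hBC ⟨hCY, hCθ⟩⟩, hAB⟩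

theorem exists_optimalH (hX : QuasiProjective X) {A V : Set (ι → K)} (hA : Subvariety X A)
    (hAV : A ⊆ V) : ∃ B, OptimalH X 𝒮 h V B ∧ A ⊆ B ∧ hdefect 𝒮 h B ≤ hdefect 𝒮 h A := by
  obtain ⟨B, hB, hAB⟩ := exists_maxBelow (𝒮 := 𝒮) (h := h) hX hA hAV
    (lt_add_one (hdefect 𝒮 h A))
  exact ⟨B, maxBelow_optimal hB, hAB, by have := hB.2.2.1; omega⟩

theorem one_le_vd (hX : QuasiProjective X) {A : Set (ι → K)} (hA : Subvariety X A) :
    1 ≤ vd A := by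
  haveI : Infinite K := IsAlgClosed.instInfinite
  obtain ⟨x, hx⟩ := hA.nonempty
  have h1 := vd_mono hX.cone (line_sub hX.cone hX.zero (hA.subset hx)) hA
    (line_subset hA.closed.1 hx)
  rwa [vd_line hX.cone hX.zero (hA.subset hx)] at h1

/-- finitely many optimal points -/
theorem points_finite (hX : QuasiProjective X) (h𝒮 : SpecialStructure X 𝒮)
    (hp : PointsNotDense X 𝒮 h) {T : Set (ι → K)} (hT : T ∈ 𝒮) :
    ∀ V, Subvariety X V → V ⊆ T → {A | OptimalH X 𝒮 h V A ∧ dim A = 0}.Finite := by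
  classical
  haveI : Infinite K := IsAlgClosed.instInfinite
  suffices H : ∀ n : ℕ, ∀ V, Subvariety X V → V ⊆ T → vd V = n →
      {A | OptimalH X 𝒮 h V A ∧ dim A = 0}.Finite from fun V hV hVT => H _ V hV hVT rfl
  intro n
  induction n using Nat.strong_induction_on with
  | _ n ih =>
    rintro V hV hVT rfl
    obtain ⟨W, hW, hVW, hWS⟩ := hp T hT V hV hVT
    obtain ⟨𝓕, hf, hs, hu⟩ := exists_decomp X (hV.closed.inter hW)
    have hsub : ∀ U ∈ 𝓕, U ⊆ V ∩ W := by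
      intro U hU
      rw [← hu]
      exact Set.subset_sUnion_of_mem hU
    have hlt : ∀ U ∈ 𝓕, vd U < vd V := by
      intro U hU
      refine vd_strict hX.cone (hs U hU) hV ⟨(hsub U hU).trans Set.inter_subset_left,
        fun h2 => hVW ?_⟩
      exact h2.trans ((hsub U hU).trans Set.inter_subset_right)
    have hfin : (⋃ U ∈ 𝓕, {A | OptimalH X 𝒮 h U A ∧ dim A = 0}).Finite := by
      refine hf.biUnion fun U hU => ?_
      exact ih _ (hlt U hU) U (hs U hU) (((hsub U hU).trans Set.inter_subset_left).trans hVT) rfl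
    refine (hfin.union (Set.finite_singleton V)).subset ?_
    rintro p ⟨hpo, hp0⟩
    rcases eq_or_ne p V with rfl | hne
    · exact Or.inr rfl
    left
    have hpV : p ⊂ V := Set.ssubset_iff_subset_ne.2 ⟨hpo.2.1, hne⟩
    have h2 : p ⊆ W := hWS p ⟨optimalH_special hX h𝒮 hT hVT hpo, hpo.2.2 V hV hpV le_rfl⟩ hp0
    obtain ⟨U, hU, hpU⟩ := hpo.1.mem_of_sUnion hf (fun U hU => (hs U hU).closed)
      (by rw [hu]; exact Set.subset_inter hpo.2.1 h2)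
    exact Set.mem_biUnion hU ⟨hpo.mono hpU ((hsub U hU).trans Set.inter_subset_left), hp0⟩

theorem optimal_of_points (hX : QuasiProjective X) (h𝒮 : SpecialStructure X 𝒮)
    (hp : PointsNotDense X 𝒮 h) : FinitelyManyOptimal X 𝒮 h := by
  classical
  haveI : Infinite K := IsAlgClosed.instInfinite
  intro T hT V hV hVT
  have hT' := hull_mem hX.cone h𝒮 hV hT hVT
  have h1 : {A | OptimalH X 𝒮 h V A} ⊆
      ⋃ d ∈ Set.Icc (0 : ℤ) (dim V), optimalCodim X 𝒮 h Set.univ V d := by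
    intro A hA
    have h2 := vd_mono hX.cone hA.1 hV hA.2.1
    have h3 := one_le_vd hX hA.1
    refine Set.mem_biUnion (x := dim V - dim A) ⟨?_, ?_⟩ ⟨hA, rfl, trivial⟩
    · rw [dim_eq, dim_eq]
      omega
    · rw [dim_eq A]
      omega
  refine ((Set.finite_Icc _ _).biUnion fun d _ => ?_).subset h1
  refine codim_step hX h𝒮 d (hull 𝒮 V) (fun U hU hUT hUd => ?_) V hV rfl
  refine (points_finite hX h𝒮 hp hT' U hU (hUT ▸ subset_hull U)).subset ?_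
  rintro A ⟨hA, hAd, -⟩
  exact ⟨hA, by omega⟩

theorem notDense_of_optimal (hX : QuasiProjective X) (ho : FinitelyManyOptimal X 𝒮 h) :
    AtypicalNotDense X 𝒮 h := by
  haveI : Infinite K := IsAlgClosed.instInfinite
  intro T hT V hV hVT
  have hfin : ({B | OptimalH X 𝒮 h V B} ∩ {B | hdefect 𝒮 h B < hdefect 𝒮 h V}).Finite :=
    (ho T hT V hV hVT).inter_of_left _
  have hcl : ∀ B ∈ {B | OptimalH X 𝒮 h V B} ∩ {B | hdefect 𝒮 h B < hdefect 𝒮 h V}, Closed X B :=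
    fun B hB => hB.1.1.closed
  refine ⟨⋃₀ ({B | OptimalH X 𝒮 h V B} ∩ {B | hdefect 𝒮 h B < hdefect 𝒮 h V}),
    closed_sUnion hfin hcl, fun hsub => ?_, fun Z hZ => ?_⟩
  · obtain ⟨B, hB, hVB⟩ := hV.mem_of_sUnion hfin hcl hsub
    have h1 : B = V := Set.Subset.antisymm hB.1.2.1 hVB
    have h2 : hdefect 𝒮 h B < hdefect 𝒮 h V := hB.2
    rw [h1] at h2
    exact lt_irrefl _ h2
  · obtain ⟨B, hB, hZB, hBd⟩ := exists_optimalH (𝒮 := 𝒮) (h := h) hX hZ.1.1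
      (hZ.1.2.1.trans Set.inter_subset_left)
    exact hZB.trans (Set.subset_sUnion_of_mem ⟨hB, hBd.trans_lt hZ.2⟩)

theorem maximal_of_optimal (hX : QuasiProjective X) (h𝒮 : SpecialStructure X 𝒮)
    (ho : FinitelyManyOptimal X 𝒮 h) : FinitelyManyMaximal X 𝒮 h := by
  haveI : Infinite K := IsAlgClosed.instInfinite
  intro T hT V hV hVT
  unfold maxAtypical
  rw [maxSpecial_eq hX.cone h𝒮 hT hVT]
  exact (ho T hT V hV hVT).subset fun A hA => maxBelow_optimal hA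

theorem notDense_of_maximal (hX : QuasiProjective X) (h𝒮 : SpecialStructure X 𝒮)
    (hm : FinitelyManyMaximal X 𝒮 h) : AtypicalNotDense X 𝒮 h := by
  haveI : Infinite K := IsAlgClosed.instInfinite
  intro T hT V hV hVT
  have hfin := hm T hT V hV hVT
  unfold maxAtypical at hfin
  rw [maxSpecial_eq hX.cone h𝒮 hT hVT] at hfin
  have hcl : ∀ B ∈ maxBelow X 𝒮 h V (hdefect 𝒮 h V), Closed X B := fun B hB => hB.1.closed
  refine ⟨⋃₀ maxBelow X 𝒮 h V (hdefect 𝒮 h V), closed_sUnion hfin hcl, fun hsub => ?_,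
    fun Z hZ => ?_⟩
  · obtain ⟨B, hB, hVB⟩ := hV.mem_of_sUnion hfin hcl hsub
    have h1 : B = V := Set.Subset.antisymm hB.2.1 hVB
    have h2 := hB.2.2.1
    rw [h1] at h2
    exact lt_irrefl _ h2
  · obtain ⟨B, hB, hZB⟩ := exists_maxBelow (𝒮 := 𝒮) (h := h) hX hZ.1.1
      (hZ.1.2.1.trans Set.inter_subset_left) hZ.2
    exact hZB.trans (Set.subset_sUnion_of_mem hB)

/-- special subvarieties contained in a closed set -/
theorem special_in_closed (hX : QuasiProjective X) (h𝒮 : SpecialStructure X 𝒮)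
    (hdi : DimIneq X 𝒮 h) (hm : FinitelyManyMaximal X 𝒮 h) {T V : Set (ι → K)} (hT : T ∈ 𝒮)
    (hVT : V ⊆ T) : ∀ U, Subvariety X U → U ⊆ V →
      ∃ 𝓕 : Set (Set (ι → K)), 𝓕.Finite ∧ (∀ Z ∈ 𝓕, SpecialIn X 𝒮 V Z ∧ Z ⊆ U) ∧
        ∀ Z, SpecialIn X 𝒮 V Z → Z ⊆ U → ∃ Z' ∈ 𝓕, Z ⊆ Z' := by
  classical
  haveI : Infinite K := IsAlgClosed.instInfinite
  suffices H : ∀ n : ℕ, ∀ U, Subvariety X U → U ⊆ V → vd U = n →
      ∃ 𝓕 : Set (Set (ι → K)), 𝓕.Finite ∧ (∀ Z ∈ 𝓕, SpecialIn X 𝒮 V Z ∧ Z ⊆ U) ∧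
        ∀ Z, SpecialIn X 𝒮 V Z → Z ⊆ U → ∃ Z' ∈ 𝓕, Z ⊆ Z' from
    fun U hU hUV => H _ U hU hUV rfl
  intro n
  induction n using Nat.strong_induction_on with
  | _ n ih =>
    rintro U hU hUV rfl
    by_cases hsp : SpecialIn X 𝒮 V U
    · exact ⟨{U}, Set.finite_singleton _, fun Z hZ => by
        rw [Set.mem_singleton_iff.1 hZ]; exact ⟨hsp, le_rfl⟩, fun Z _ hZU => ⟨U, rfl, hZU⟩⟩
    -- the special subvarieties in `U` are atypical in `U`
    have hUT := hUV.trans hVT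
    have hhU := hull_mem hX.cone h𝒮 hU hT hUT
    obtain ⟨V₁, hV₁, hUV₁⟩ := exists_component hX.cone hU (Set.subset_inter hUV
      (subset_hull (𝒮 := 𝒮) U))
    have hh1 : hull 𝒮 V₁ = hull 𝒮 U := Set.Subset.antisymm
      (hull_subset hhU (hV₁.2.1.trans Set.inter_subset_right)) (hull_mono hUV₁)
    have hne : U ≠ V₁ := by
      rintro rfl
      exact hsp hV₁
    have hlt := vd_strict hX.cone hU hV₁.1 (Set.ssubset_iff_subset_ne.2 ⟨hUV₁, hne⟩)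
    have hat : ∀ Z, SpecialIn X 𝒮 V Z → Z ⊆ U → hdefect 𝒮 h Z < hdefect 𝒮 h U := by
      intro Z hZ hZU
      have hZ1 : SpecialIn X 𝒮 V₁ Z := ⟨hZ.1, Set.subset_inter (hZU.trans hUV₁)
        (subset_hull Z), fun D hD hZD hDV => hZ.2.2 D hD hZD (Set.subset_inter
          ((hDV.trans Set.inter_subset_left).trans (hV₁.2.1.trans Set.inter_subset_left))
          (hDV.trans Set.inter_subset_right))⟩
      have h1 := hdi V₁ hV₁.1 Z hZ1
      have h2 : hdefect 𝒮 h V₁ < hdefect 𝒮 h U := by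
        rw [hdefect, hdefect, hh1, dim_eq, dim_eq]
        omega
      omega
    have hfin := hm T hT U hU hUT
    unfold maxAtypical at hfin
    rw [maxSpecial_eq hX.cone h𝒮 hT hUT] at hfin
    have hltA : ∀ A ∈ maxBelow X 𝒮 h U (hdefect 𝒮 h U), vd A < vd U := by
      intro A hA
      refine vd_strict hX.cone hA.1 hU (Set.ssubset_iff_subset_ne.2 ⟨hA.2.1, ?_⟩)
      rintro rfl
      exact lt_irrefl _ hA.2.2.1
    have hch : ∀ A : maxBelow X 𝒮 h U (hdefect 𝒮 h U),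
        ∃ 𝓕 : Set (Set (ι → K)), 𝓕.Finite ∧ (∀ Z ∈ 𝓕, SpecialIn X 𝒮 V Z ∧ Z ⊆ A.1) ∧
          ∀ Z, SpecialIn X 𝒮 V Z → Z ⊆ A.1 → ∃ Z' ∈ 𝓕, Z ⊆ Z' :=
      fun A => ih _ (hltA A.1 A.2) A.1 A.2.1 (A.2.2.1.trans hUV) rfl
    choose F hF1 hF2 hF3 using hch
    haveI : Finite (maxBelow X 𝒮 h U (hdefect 𝒮 h U)) := hfin
    refine ⟨⋃ A, F A, Set.finite_iUnion hF1, ?_, ?_⟩
    · intro Z hZ
      obtain ⟨A, hA⟩ := Set.mem_iUnion.1 hZ
      exact ⟨(hF2 A Z hA).1, (hF2 A Z hA).2.trans A.2.2.1⟩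
    · intro Z hZ hZU
      obtain ⟨A, hA, hZA⟩ := exists_maxBelow (𝒮 := 𝒮) (h := h) hX hZ.1 hZU (hat Z hZ hZU)
      obtain ⟨Z', hZ', hsub⟩ := hF3 ⟨A, hA⟩ Z hZ hZA
      exact ⟨Z', Set.mem_iUnion.2 ⟨_, hZ'⟩, hsub⟩

theorem singular_iff (hX : QuasiProjective X) (h𝒮 : SpecialStructure X 𝒮)
    (hdi : DimIneq X 𝒮 h) : FinitelyManyMaximal X 𝒮 h ↔ WithSingularLocus X 𝒮 h := by
  classical
  haveI : Infinite K := IsAlgClosed.instInfinite
  constructor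
  · intro hm T hT V hV hVT E₀ hE
    obtain ⟨𝓖, hg, hgs, hgu⟩ := exists_decomp X (hV.closed.inter hE)
    have hsub : ∀ U ∈ 𝓖, U ⊆ V ∩ E₀ := by
      intro U hU
      rw [← hgu]
      exact Set.subset_sUnion_of_mem hU
    have hch : ∀ U : 𝓖, ∃ 𝓕 : Set (Set (ι → K)), 𝓕.Finite ∧
        (∀ Z ∈ 𝓕, SpecialIn X 𝒮 V Z ∧ Z ⊆ U.1) ∧
          ∀ Z, SpecialIn X 𝒮 V Z → Z ⊆ U.1 → ∃ Z' ∈ 𝓕, Z ⊆ Z' :=
      fun U => special_in_closed hX h𝒮 hdi hm hT hVT U.1 (hgs U.1 U.2)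
        ((hsub U.1 U.2).trans Set.inter_subset_left)
    choose F hF1 hF2 hF3 using hch
    haveI : Finite 𝓖 := hg
    have hfin := hm T hT V hV hVT
    refine ⟨maxAtypical X 𝒮 h V ∪ ⋃ U, F U, hfin.union (Set.finite_iUnion hF1), ?_, ?_⟩
    · rintro Z (hZ | hZ)
      · exact ⟨hZ.1, Or.inl hZ.2.1⟩
      · obtain ⟨U, hU⟩ := Set.mem_iUnion.1 hZ
        exact ⟨(hF2 U Z hU).1, Or.inr (((hF2 U Z hU).2.trans (hsub U.1 U.2)).trans
          Set.inter_subset_right)⟩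
    · rintro Z hZ (hd | hs)
      · obtain ⟨A, hA, hZA⟩ := exists_maxBelow (𝒮 := 𝒮) (h := h) hX hZ.1
          (hZ.2.1.trans Set.inter_subset_left) hd
        rw [← maxSpecial_eq hX.cone h𝒮 hT hVT] at hA
        exact ⟨A, Or.inl hA, hZA⟩
      · obtain ⟨U, hU, hZU⟩ := hZ.1.mem_of_sUnion hg (fun U hU => (hgs U hU).closed)
          (by rw [hgu]; exact Set.subset_inter (hZ.2.1.trans Set.inter_subset_left) hs)
        obtain ⟨Z', hZ', hsub'⟩ := hF3 ⟨U, hU⟩ Z hZ hZU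
        exact ⟨Z', Or.inr (Set.mem_iUnion.2 ⟨_, hZ'⟩), hsub'⟩
  · intro hs T hT V hV hVT
    obtain ⟨𝓕, hf, hf1, hf2⟩ := hs T hT V hV hVT ∅ (closed_empty X)
    refine hf.subset fun Z hZ => ?_
    obtain ⟨Z', hZ', hsub⟩ := hf2 Z hZ.1 (Or.inl hZ.2.1)
    have h1 : hdefect 𝒮 h Z' < hdefect 𝒮 h V := by
      refine (hf1 Z' hZ').2.resolve_right fun h2 => ?_
      obtain ⟨x, hx⟩ := (hf1 Z' hZ').1.1.nonempty
      exact (h2 hx).elim
    rw [← hZ.2.2 Z' (hf1 Z' hZ').1 hsub h1]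
    exact hZ'

theorem formsH (hX : QuasiProjective X) (h𝒮 : SpecialStructure X 𝒮) :
    List.TFAE [PointsNotDense X 𝒮 h, AtypicalNotDense X 𝒮 h, FinitelyManyMaximal X 𝒮 h,
      FinitelyManyOptimal X 𝒮 h] := by
  tfae_have 1 → 4 := optimal_of_points hX h𝒮
  tfae_have 4 → 3 := maximal_of_optimal hX h𝒮
  tfae_have 3 → 2 := notDense_of_maximal hX h𝒮
  tfae_have 2 → 1 := fun hn T hT V hV hVT => by
    obtain ⟨W, h1, h2, h3⟩ := hn T hT V hV hVT
    exact ⟨W, h1, h2, fun Z hZ _ => h3 Z hZ⟩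
  tfae_finish

end Pool.Agent.R370.HS
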